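import Pool.Agent.H29.T1.Base

/-!
# T1: the pairs of symmetric matrices of a bad class (definitions shared by S4 and S5)
-/

set_option autoImplicit false

namespace Pool.T1

open Polynomial Matrix Pool.HYP Pool.TOW Pool.AVS IsDedekindDomain

/-- The possible degrees: monotone sequences with `0 ≤ d i + d (n - 1 - i)` and sum at most `C`. -/
def Adm {n : ℕ} (C : ℤ) (d : Fin n → ℤ) : Prop :=
  Monotone d ∧ (∀ i, 0 ≤ d i + d i.rev) ∧ ∑ i, d i ≤ C

section

variable {R : Type} [CommRing R] [IsDomain R] {K : Type} [Field K] [Algebra R K]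

/-- The pairs of symmetric matrices attached to `f` and `d`. -/
def PMK {O : ValuationSubring K} (π : K) (g : ℕ) (D : Dat R O) (h : ℕ)
    (d : Fin (2 * g + 1) → ℤ) (f : R[X])
    (G S : Matrix (Fin (2 * g + 1)) (Fin (2 * g + 1)) R) : Prop :=
  Gᵀ = G ∧ Sᵀ = S ∧ (∀ i j, G i j ∈ Lm R O π (d i + d j)) ∧
    (∀ i j, S i j ∈ Lm R O π (d i + d j + h)) ∧ G.det ≠ 0 ∧
    (pen G S).det = C G.det * f ∧ (∀ P ∈ D.T, StdP (2 * g + 1) P.asIdeal f G S) ∧
    ¬ ∀ i j : Fin (2 * g + 1), (i : ℕ) < g → (j : ℕ) < g → G i j = 0 ∧ S i j = 0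

variable (R) in
/-- KEY with the constant `C`: the pair of matrices of a bad class. -/
def KeyC (O : ValuationSubring K) (π : K) (g : ℕ) (C : ℤ) : Prop :=
  ∀ (D : Dat R O) (h : ℕ), D.Ok g → (∀ P ∈ D.T, C < (Nat.card (R ⧸ P.asIdeal) : ℤ)) →
    ∀ f ∈ Fam π g D h, Bad K D.T f →
    ∃ (d : Fin (2 * g + 1) → ℤ) (G S : Matrix (Fin (2 * g + 1)) (Fin (2 * g + 1)) R),
      Adm C d ∧ PMK π g D h d f G S

end

end Pool.T1
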