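import Pool.Agent.H41.T1.PM
import Pool.Agent.H29.T1.S7

/-!
# T1: statements of the modules, part 5 (counting pairs of matrices)
-/

set_option autoImplicit false

namespace Pool.T1

open Polynomial Matrix Pool.HYP Pool.TOW Pool.AVS IsDedekindDomain

section Defs5

variable (R : Type) [CommRing R] {K : Type} [Field K] [Algebra R K]

/-- The upper bound for the number of the elements of `Lm`. -/
def CntU (O : ValuationSubring K) (π : K) : Prop :=
  ∀ m : ℤ, (Lm R O π m).Finite ∧ (Lm R O π m).ncard ≤ qq O ^ (m + 1).toNat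

/-- The lower bound for the number of the elements of `Lm`, with the constant `c`. -/
def CntL (O : ValuationSubring K) (π : K) (c : ℕ) : Prop :=
  ∀ m : ℕ, qq O ^ (m + 1) ≤ c * (Lm R O π (m : ℤ)).ncard

/-- Equal distribution modulo an ideal. -/
def CntC (O : ValuationSubring K) (π : K) (C : ℕ) : Prop :=
  ∀ (I : Ideal R) (m : ℕ), I ≠ ⊥ → C * Nat.card (R ⧸ I) ≤ qq O ^ m → ∀ r : R,
    {a ∈ Lm R O π (m : ℤ) | a - r ∈ I}.ncard * Nat.card (R ⧸ I) = (Lm R O π (m : ℤ)).ncard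

/-- Equal distribution modulo an ideal and at infinity. -/
def CntX (O : ValuationSubring K) (π : K) (C : ℕ) : Prop :=
  ∀ (I : Ideal R) (m : ℕ), I ≠ ⊥ → C * Nat.card (R ⧸ I) ≤ qq O ^ m →
    ∀ (r : R) (x : K), x ∈ O →
    {a ∈ Lm R O π (m : ℤ) | a - r ∈ I ∧ (algebraMap R K a * π ^ m - x) / π ∈ O}.ncard *
      Nat.card (R ⧸ I) * qq O = (Lm R O π (m : ℤ)).ncard

/-- The upper triangular matrices with diagonal entries `1` and with entries in `Lm (d j - d i)`. -/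
def UUK (O : ValuationSubring K) (π : K) {n : ℕ} (d : Fin n → ℤ) :
    Set (Matrix (Fin n) (Fin n) R) :=
  {u | (∀ i, u i i = 1) ∧ (∀ i j, j < i → u i j = 0) ∧
    ∀ i j, i < j → u i j ∈ Lm R O π (d j - d i)}

/-- The exponent of the number of the matrices `G`. -/
def EGk {n : ℕ} (d : Fin n → ℤ) : ℕ := sumLe fun i j => (d i + d j + 1).toNat

/-- The exponent of the number of the matrices `S`. -/
def ESk {n : ℕ} (d : Fin n → ℤ) (h : ℕ) : ℕ := sumLe fun i j => (d i + d j + h + 1).toNat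

/-- The exponent of the order of the group. -/
def EUk {n : ℕ} (d : Fin n → ℤ) : ℕ := sumLt fun i j => (d j - d i + 1).toNat

/-- The numbers `max (-d i) 0` for `i < g`. -/
def muK {g : ℕ} (d : Fin (2 * g + 1) → ℤ) : Fin g → ℕ :=
  fun i => (-d ⟨(i : ℕ), by omega⟩).toNat

variable [IsDomain R] {R}

/-- The polynomials attached to `d`. -/
def PFK {O : ValuationSubring K} (π : K) (g : ℕ) (D : Dat R O) (h : ℕ)
    (d : Fin (2 * g + 1) → ℤ) : Set R[X] :=
  {f ∈ Fam π g D h | ∃ G S, PMK π g D h d f G S}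

/-- The pairs attached to `d`. -/
def PPK {O : ValuationSubring K} (π : K) (g : ℕ) (D : Dat R O) (h : ℕ)
    (d : Fin (2 * g + 1) → ℤ) :
    Set (Matrix (Fin (2 * g + 1)) (Fin (2 * g + 1)) R ×
      Matrix (Fin (2 * g + 1)) (Fin (2 * g + 1)) R) :=
  {p | ∃ f ∈ Fam π g D h, PMK π g D h d f p.1 p.2}

variable (R)

/-- The lower bound for the size of the family, with the constant `c`. -/
def FamL (O : ValuationSubring K) (π : K) (g c : ℕ) : Prop :=
  ∀ D : Dat R O, D.Ok g → ∃ h₀ : ℕ, ∀ h : ℕ, h₀ ≤ h →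
    qq O ^ (h * ((2 * g + 1) * (g + 1))) ≤
      c * ((Fam π g D h).ncard * (∏ P ∈ D.T, Nm P ^ (2 * g + 1)) *
        ∏ P ∈ D.T', Nm P ^ (2 * g + 1))

end Defs5

/-! ### Facts -/

/-- QGEK: the residue field has at least three elements. -/
def QGEKStmt : Prop :=
  ∀ (R : Type) [CommRing R] [IsDedekindDomain R] (K : Type) [Field K] [Algebra R K]
    [IsFractionRing R K] (O : ValuationSubring K) (π : K), GR R O π → 3 ≤ qq O

/-- PRDK: the norm of a product of different primes. -/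
def PRDKStmt : Prop :=
  ∀ (R : Type) [CommRing R] [IsDedekindDomain R] (T : Finset (HeightOneSpectrum R)),
    Nat.card (R ⧸ ∏ P ∈ T, P.asIdeal) = ∏ P ∈ T, Nm P

/-- FAMLK: the lower bound for the size of the family (from FAMK and ALLK). -/
def FAMLKStmt : Prop :=
  ∀ (R : Type) [CommRing R] [IsDedekindDomain R] (K : Type) [Field K] [Algebra R K]
    [IsFractionRing R K] (O : ValuationSubring K) (π : K), GR R O π → CntU R O π →
    (∃ C : ℕ, CntX R O π C) → ∀ (c g : ℕ), CntL R O π c → 1 ≤ g →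
    FamL R O π g (c ^ (2 * g + 1))

/-! ### Numbers of matrices -/

/-- CTSK: the number of symmetric matrices (as CTS). -/
def CTSKStmt : Prop :=
  ∀ (R : Type) [CommRing R] (K : Type) [Field K] [Algebra R K] (O : ValuationSubring K) (π : K),
    CntU R O π → ∀ (n : ℕ) (e : Fin n → Fin n → ℤ),
    {G : Matrix (Fin n) (Fin n) R | Gᵀ = G ∧ ∀ i j, G i j ∈ Lm R O π (e i j)}.Finite ∧
    {G : Matrix (Fin n) (Fin n) R | Gᵀ = G ∧ ∀ i j, G i j ∈ Lm R O π (e i j)}.ncard ≤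
      qq O ^ sumLe (fun i j => (e i j + 1).toNat)

/-- CTTK: the trivial bound for the number of pairs (as CTT, from CTSK). -/
def CTTKStmt : Prop :=
  ∀ (R : Type) [CommRing R] [IsDomain R] (K : Type) [Field K] [Algebra R K]
    (O : ValuationSubring K) (π : K), CntU R O π → ∀ (g : ℕ) (D : Dat R O) (h : ℕ)
    (d : Fin (2 * g + 1) → ℤ),
    (PPK π g D h d).Finite ∧ (PPK π g D h d).ncard ≤ qq O ^ (EGk d + ESk d h)

/-- CTRK: symmetric matrices with given residues (as CTR; the matrices `S` with the same residues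
as `S₀` are determined by the entries `i ≤ j`, which are `S₀ i j` modulo the product of the
primes). -/
def CTRKStmt : Prop :=
  ∀ (R : Type) [CommRing R] [IsDedekindDomain R] (K : Type) [Field K] [Algebra R K]
    [IsFractionRing R K] (O : ValuationSubring K) (π : K), GR R O π → CntU R O π →
    ∀ (n : ℕ) (T : Finset (HeightOneSpectrum R))
    (X : ∀ P : HeightOneSpectrum R, Set (Matrix (Fin n) (Fin n) (R ⧸ P.asIdeal)))
    (e : Fin n → Fin n → ℤ),
    (∀ (i j : Fin n) (r : R),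
      {a ∈ Lm R O π (e i j) | a - r ∈ ∏ P ∈ T, P.asIdeal}.ncard * (∏ P ∈ T, Nm P) ≤
        qq O ^ (e i j + 1).toNat) →
    {S : Matrix (Fin n) (Fin n) R | Sᵀ = S ∧ (∀ i j, S i j ∈ Lm R O π (e i j)) ∧
      ∀ P ∈ T, S.map (Ideal.Quotient.mk P.asIdeal) ∈ X P}.ncard *
        (∏ P ∈ T, Nm P) ^ (n * (n + 1) / 2) ≤
      (∏ P ∈ T, (X P).ncard) * qq O ^ sumLe (fun i j => (e i j + 1).toNat)

/-- CTMK: the bound for the number of pairs with local conditions (as CTM, from CTSK, CTRK and CTX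
for the fields `R ⧸ P`). -/
def CTMKStmt : Prop :=
  ∀ (R : Type) [CommRing R] [IsDedekindDomain R] (K : Type) [Field K] [Algebra R K]
    [IsFractionRing R K] (O : ValuationSubring K) (π : K), GR R O π → CntU R O π →
    ∀ (g : ℕ) (D : Dat R O) (h : ℕ) (d : Fin (2 * g + 1) → ℤ), 1 ≤ g → D.Ok g →
    (∀ P ∈ D.T, 2 * (2 * g + 1) * D.T.card ≤ Nm P) →
    (∀ (i j : Fin (2 * g + 1)) (r : R),
      {a ∈ Lm R O π (d i + d j + h) | a - r ∈ ∏ P ∈ D.T, P.asIdeal}.ncard *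
        (∏ P ∈ D.T, Nm P) ≤ qq O ^ (d i + d j + h + 1).toNat) →
    2 ^ D.T.card * (PPK π g D h d).ncard * (∏ P ∈ D.T, Nm P) ^ (2 * g + 1) ≤
      2 * qq O ^ (EGk d + ESk d h)

/-- CT1K: orbits (as CT1: `(f, u) ↦ (uᵀ G u, uᵀ S u)` is injective, by STAB). -/
def CT1KStmt : Prop :=
  ∀ (R : Type) [CommRing R] [IsDedekindDomain R] (K : Type) [Field K] [Algebra R K]
    [IsFractionRing R K] (O : ValuationSubring K) (π : K), GR R O π →
    ∀ (g : ℕ) (D : Dat R O) (h : ℕ) (d : Fin (2 * g + 1) → ℤ), 1 ≤ g → D.Ok g →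
    (∀ f ∈ Fam π g D h, Irreducible (fk K f)) → Monotone d → (PPK π g D h d).Finite →
    (PFK π g D h d).ncard * (UUK R O π d).ncard ≤ (PPK π g D h d).ncard

/-- CT2K: the order of the group (as CT2). -/
def CT2KStmt : Prop :=
  ∀ (R : Type) [CommRing R] [IsDedekindDomain R] (K : Type) [Field K] [Algebra R K]
    [IsFractionRing R K] (O : ValuationSubring K) (π : K), GR R O π → CntU R O π →
    ∀ c : ℕ, CntL R O π c → ∀ (n : ℕ) (d : Fin n → ℤ), Monotone d →
    (UUK R O π d).Finite ∧ qq O ^ EUk d ≤ c ^ (n * n) * (UUK R O π d).ncard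

/-! ### Exponents -/

/-- CTAK: the possible `d` (as CTA; DIST is in PMK, INV gives `0 ≤ d (k-1) + d (n-k-1) + h`). -/
def CTAKStmt : Prop :=
  ∀ (R : Type) [CommRing R] [IsDedekindDomain R] (K : Type) [Field K] [Algebra R K]
    [IsFractionRing R K] (O : ValuationSubring K) (π : K), GR R O π →
    ∀ (g : ℕ) (D : Dat R O) (h C : ℕ) (d : Fin (2 * g + 1) → ℤ), 1 ≤ g →
    (∀ f ∈ Fam π g D h, Irreducible (fk K f)) → Adm (C : ℤ) d →
    (PFK π g D h d).Nonempty → Alw (h + 4 * C) (muK d)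

/-- DIFK: `d` is almost `dd (muK d)`. -/
def DIFKStmt : Prop :=
  ∀ (g C : ℕ) (d : Fin (2 * g + 1) → ℤ), Adm (C : ℤ) d →
    Antitone (muK d) ∧ ∀ i, |d i - dd (muK d) i| ≤ 2 * C

/-- EXPK: comparison of exponents (from DIFK, EXPO and PHI with `h + 4 C`). -/
def EXPKStmt : Prop :=
  ∀ g C : ℕ, ∃ c : ℕ, ∀ (h : ℕ) (d : Fin (2 * g + 1) → ℤ), Adm (C : ℤ) d →
    Alw (h + 4 * C) (muK d) →
    (∀ (i : Fin g) (m : ℕ), m ≤ muK d i → 2 * m ≤ h →
      EGk d + ESk d h + m ≤ EUk d + h * ((2 * g + 1) * (g + 1)) + c) ∧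
    ((∀ i, 0 ≤ 2 * d i + h) →
      EGk d + ESk d h + ∑ i, muK d i ≤ EUk d + h * ((2 * g + 1) * (g + 1)) + c)

/-- NUMK: the number of the `d` with given `muK d` (from DIFK). -/
def NUMKStmt : Prop :=
  ∀ g C : ℕ, ∃ c : ℕ, ∀ μ : Fin g → ℕ,
    {d : Fin (2 * g + 1) → ℤ | Adm (C : ℤ) d ∧ muK d = μ}.Finite ∧
    {d : Fin (2 * g + 1) → ℤ | Adm (C : ℤ) d ∧ muK d = μ}.ncard ≤ c

/-! ### The bad classes -/

/-- BADK: few polynomials have a bad class (as BAD, from all modules of this part, GEO, and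
`KeyC`). -/
def BADKStmt : Prop :=
  ∀ (R : Type) [CommRing R] [IsDedekindDomain R] (K : Type) [Field K] [Algebra R K]
    [IsFractionRing R K] (O : ValuationSubring K) (π : K), GR R O π → CntU R O π →
    (∃ c : ℕ, CntL R O π c) → (∃ C : ℕ, CntC R O π C) → ∀ g : ℕ, 1 ≤ g →
    (∃ C : ℤ, KeyC R O π g C) → (∃ c : ℕ, FamL R O π g c) →
    (∀ (D : Dat R O) (h : ℕ), D.Ok g → ∀ f ∈ Fam π g D h, Irreducible (fk K f)) →
    ∀ T' : Finset (HeightOneSpectrum R), ∃ k₀ b : ℕ, ∀ D : Dat R O, D.Ok g → D.T' = T' →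
    k₀ ≤ D.T.card → (∀ P ∈ D.T, b < Nm P ∧ 2 * (2 * g + 1) * D.T.card ≤ Nm P) →
    ∃ h₀ : ℕ, ∀ h : ℕ, h₀ ≤ h →
      8 * {f ∈ Fam π g D h | Bad K D.T f}.ncard ≤ (Fam π g D h).ncard

end Pool.T1
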